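import Pool.Agent.L7h29.NH.Lam

set_option autoImplicit false

/-! Project NH, part EVA. -/

namespace Pool.Agent.L7h29.NH

open Polynomial
open scoped LinearAlgebra.Projectivization Matrix Classical
open Pool.Agent.L7h89.NH

/-- `(e × t) × p = - (p · t) (e + c t)` if `p · (e + c t) = 0` -/
theorem cross_cross {F : Type} [Field F] (e t p : Fin 3 → F) (c : F)
    (hp : p ⬝ᵥ (e + c • t) = 0) :
    crossProduct (crossProduct e t) p = (-(p ⬝ᵥ t)) • (e + c • t) := by
  simp only [dotProduct, Fin.sum_univ_three, Pi.add_apply, Pi.smul_apply, smul_eq_mul] at hp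
  ext i
  simp only [cross_apply, dotProduct, Fin.sum_univ_three, Pi.add_apply, Pi.smul_apply, smul_eq_mul]
  fin_cases i
  · simp only [Fin.isValue, Fin.zero_eta, Matrix.cons_val_zero, Matrix.cons_val_one, Matrix.cons_val]
    linear_combination (t 0) * hp
  · simp only [Fin.isValue, Fin.mk_one, Matrix.cons_val_zero, Matrix.cons_val_one, Matrix.cons_val]
    linear_combination (t 1) * hp
  · simp only [Fin.isValue, Fin.reduceFinMk, Matrix.cons_val_zero, Matrix.cons_val_one, Matrix.cons_val]
    linear_combination (t 2) * hp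

theorem factor_identity {F : Type} [Field F] [Fintype F] (r : F) (hr : r ≠ 0)
    (n1 n2 ps j : ℕ) (hps : ps = 3 * j) (hn1 : n1 + ps + 4 = Fintype.card F)
    (hn2 : n2 + j + 1 = Fintype.card F) :
    r ^ n1 * (-r⁻¹) ^ ps = - ((r ^ n2) ^ 3 * ((-r⁻¹) ^ (j + 1)) ^ 3) := by
  have hq : r ^ (Fintype.card F - 1) = 1 := FiniteField.pow_card_sub_one_eq_one r hr
  have hr3 : (r ^ n2) ^ 3 = r ^ n1 * r ^ 3 := by
    rw [← pow_mul, ← pow_add]
    have e1 : n2 * 3 = (n1 + 3) + (Fintype.card F - 1) * 2 := by omega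
    rw [e1, pow_add, pow_mul, hq, one_pow, mul_one]
  have e2 : ((-r⁻¹) ^ (j + 1)) ^ 3 = (-r⁻¹) ^ ps * (-(r⁻¹) ^ 3) := by
    rw [hps, ← pow_mul, show (j + 1) * 3 = 3 * j + 3 by ring, pow_add, Odd.neg_pow (by decide : Odd 3)]
  rw [hr3, e2]
  have e3 : r ^ 3 * (r⁻¹) ^ 3 = 1 := by
    rw [← mul_pow, mul_inv_cancel₀ hr, one_pow]
  linear_combination (-(r ^ n1 * (-r⁻¹) ^ ps)) * e3

theorem div_factor {F : Type} [Field F] (k k' X Y : F) (hk' : k' ≠ 0) (hk : k = -k') :
    (k * X) / (k' * Y) = -(X / Y) := by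
  rw [mul_div_mul_comm, hk, neg_div, div_self hk']
  ring

theorem s_EVA (hlam : S_LAM) : S_EVA := by
  intro F _ _ S P x l e t c r hS hP hx hxe hxt hetx hst hr hl hd hpsi
  have hxl : On x l := by
    unfold On
    rw [hl, dotProduct_smul, dotProduct_add, dotProduct_smul, hxe, hxt]
    simp
  -- values off the line
  have hoff : ∀ p : Pt F, p.rep ⬝ᵥ l.rep = r * (p.rep ⬝ᵥ (e + c • t)) := by
    intro p
    rw [hl, dotProduct_smul, smul_eq_mul]
  -- values on the line
  have hon : ∀ p : Pt F, On p l → lam l x p = (-r⁻¹) * (p.rep ⬝ᵥ t) := by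
    intro p hp
    have hp' : p.rep ⬝ᵥ (e + c • t) = 0 := by
      have h1 : p.rep ⬝ᵥ l.rep = 0 := hp
      rw [hoff p] at h1
      exact (mul_eq_zero.mp h1).resolve_left hr
    have h2 := cross_cross e t p.rep c hp'
    unfold lam
    rw [← hetx, h2, dotProduct_smul, smul_eq_mul]
    have h3 : dv l ⬝ᵥ (e + c • t) = r⁻¹ := by
      have h4 := dv_spec l
      rw [hl, dotProduct_smul, smul_eq_mul] at h4
      exact eq_inv_of_mul_eq_one_right h4
    rw [h3]; ring
  set i := deg S l with hi
  obtain ⟨j, hj⟩ : ∃ j, i = j + 2 := ⟨i - 2, by omega⟩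
  have hpj : psi P l = 3 * j := by rw [hpsi, hj]; congr 1
  -- cards
  have hcP : (P.filter (fun p => ¬ On p l)).card + (P.filter (fun p => On p l)).card = P.card := by
    rw [← Multiset.card_add, add_comm, Multiset.filter_add_not]
  have hcS : (meet S l).card + (S.filter (fun s => ¬ On s l)).card = S.card := by
    unfold meet
    exact Finset.card_filter_add_card_filter_not _
  have hxm : x ∈ meet S l := by
    unfold meet
    exact Finset.mem_filter.mpr ⟨hx, hxl⟩
  have hce : ((meet S l).erase x).card = j + 1 := by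
    rw [Finset.card_erase_of_mem hxm]
    have : (meet S l).card = i := rfl
    omega
  have hpsi' : psi P l = (P.filter (fun p => On p l)).card := by
    unfold psi; congr
  -- the four products
  have e1 : ((P.filter (fun p => ¬ On p l)).map (fun p => p.rep ⬝ᵥ l.rep)).prod =
      r ^ (P.filter (fun p => ¬ On p l)).card *
        ((P.filter (fun p => ¬ On p l)).map (fun p => p.rep ⬝ᵥ (e + c • t))).prod := by
    rw [Multiset.map_congr rfl (fun p _ => hoff p), Multiset.prod_map_mul, Multiset.map_const',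
      Multiset.prod_replicate]
  have e2 : ((P.filter (fun p => On p l)).map (fun p => lam l x p)).prod =
      (-r⁻¹) ^ (P.filter (fun p => On p l)).card *
        ((P.filter (fun p => On p l)).map (fun p => p.rep ⬝ᵥ t)).prod := by
    rw [Multiset.map_congr rfl (fun p hp => hon p (Multiset.mem_filter.mp hp).2),
      Multiset.prod_map_mul, Multiset.map_const', Multiset.prod_replicate]
  have e3 : (∏ s ∈ S.filter (fun s => ¬ On s l), s.rep ⬝ᵥ l.rep) =
      r ^ (S.filter (fun s => ¬ On s l)).card *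
        ∏ s ∈ S.filter (fun s => ¬ On s l), s.rep ⬝ᵥ (e + c • t) := by
    rw [Finset.prod_congr rfl (fun s _ => hoff s), Finset.prod_mul_distrib, Finset.prod_const]
  have e4 : (∏ y ∈ (meet S l).erase x, lam l x y) =
      (-r⁻¹) ^ ((meet S l).erase x).card * ∏ y ∈ (meet S l).erase x, y.rep ⬝ᵥ t := by
    have hmeet : ∀ y ∈ (meet S l).erase x, lam l x y = (-r⁻¹) * (y.rep ⬝ᵥ t) := by
      intro y hy
      have h5 := Finset.mem_of_mem_erase hy
      unfold meet at h5
      exact hon y (Finset.mem_filter.mp h5).2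
    rw [Finset.prod_congr rfl hmeet, Finset.prod_mul_distrib, Finset.prod_const]
  unfold W
  rw [e1, e2, e3, e4, hce]
  set n1 := (P.filter (fun p => ¬ On p l)).card with hn1
  set n2 := (S.filter (fun s => ¬ On s l)).card with hn2
  set ps := (P.filter (fun p => On p l)).card with hps
  have hfac := factor_identity r hr n1 n2 ps j (by omega) (by omega)
    (by have : (meet S l).card = i := rfl
        omega)
  have hk' : (r ^ n2) ^ 3 * ((-r⁻¹) ^ (j + 1)) ^ 3 ≠ 0 :=
    mul_ne_zero (pow_ne_zero _ (pow_ne_zero _ hr))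
      (pow_ne_zero _ (pow_ne_zero _ (neg_ne_zero.mpr (inv_ne_zero hr))))
  rw [← div_factor _ _ _ _ hk' hfac]
  congr 1
  · ring
  · ring

end Pool.Agent.L7h29.NH
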