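import Pool.Agent.L7h89.NH.Stm

set_option autoImplicit false

/-! Project NH, parts LAM and BIS. -/

namespace Pool.Agent.L7h29.NH

open Polynomial
open scoped LinearAlgebra.Projectivization Matrix Classical
open Pool.Agent.L7h89.NH

theorem dv_spec {F : Type} [Field F] (l : Pt F) : dv l ⬝ᵥ l.rep = 1 :=
  Classical.choose_spec (exists_dv l)

/-- the cross product of two vectors orthogonal to a vector of the dual is a multiple of it -/
theorem cross_mul {F : Type} [Field F] (d w u v : Fin 3 → F) (hd : d ⬝ᵥ w = 1) (hu : u ⬝ᵥ w = 0)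
    (hv : v ⬝ᵥ w = 0) : crossProduct u v = (d ⬝ᵥ crossProduct u v) • w := by
  simp only [dotProduct, Fin.sum_univ_three] at hd hu hv
  ext i
  rw [cross_apply]
  simp only [dotProduct, Fin.sum_univ_three, Pi.smul_apply, smul_eq_mul]
  fin_cases i
  · simp only [Fin.isValue, Fin.zero_eta, Matrix.cons_val_zero, Matrix.cons_val_one, Matrix.cons_val]
    linear_combination (-(u 1 * v 2 - u 2 * v 1)) * hd + (d 1 * v 2 - d 2 * v 1) * hu +
      (-(d 1 * u 2) + d 2 * u 1) * hv
  · simp only [Fin.isValue, Fin.mk_one, Matrix.cons_val_zero, Matrix.cons_val_one, Matrix.cons_val]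
    linear_combination (-(u 2 * v 0 - u 0 * v 2)) * hd + (-(d 0 * v 2) + d 2 * v 0) * hu +
      (d 0 * u 2 - d 2 * u 0) * hv
  · simp only [Fin.isValue, Fin.reduceFinMk, Matrix.cons_val_zero, Matrix.cons_val_one, Matrix.cons_val]
    linear_combination (-(u 0 * v 1 - u 1 * v 0)) * hd + (d 0 * v 1 - d 1 * v 0) * hu +
      (-(d 0 * u 1) + d 1 * u 0) * hv

theorem s_LAM : S_LAM := by
  intro F _ l
  have h1 : ∀ x y : Pt F, On x l → On y l → crossProduct x.rep y.rep = lam l x y • l.rep :=
    fun x y hx hy => cross_mul (dv l) l.rep x.rep y.rep (dv_spec l) hx hy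
  refine ⟨h1, ?_, ?_, ?_⟩
  · intro x y
    unfold lam
    rw [← cross_anticomm, dotProduct_neg]
  · intro x y hx hy
    constructor
    · intro h
      have h2 := h1 x y hx hy
      rw [h, zero_smul] at h2
      rw [← x.mk_rep, ← y.mk_rep]
      exact (Projectivization.mk_eq_mk_iff_crossProduct_eq_zero x.rep_nonzero y.rep_nonzero).mpr h2
    · rintro rfl
      unfold lam
      rw [cross_self, dotProduct_zero]
  · intro x y z r _ _ _ _
    simp only [lam, cross_apply, dotProduct, Fin.sum_univ_three, Fin.isValue,
      Matrix.cons_val_zero, Matrix.cons_val_one, Matrix.cons_val]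
    ring

theorem s_BIS (hlam : S_LAM) : S_BIS := by
  intro F _ _ S P l hdeg
  obtain ⟨x, y, hxy, hm⟩ := Finset.card_eq_two.mp hdeg
  rw [hm, Finset.sum_pair hxy]
  unfold val
  by_cases h : 2 ≤ deg S l ∧ psi P l = 3 * (deg S l - 2)
  · rw [if_pos h, if_pos h]
    have h1 := h.2
    rw [hdeg] at h1
    have h0 : P.filter (fun p => On p l) = 0 := by
      apply Multiset.card_eq_zero.mp
      have h2 : psi P l = (P.filter (fun p => On p l)).card := by
        unfold psi; congr
      omega
    have ex : ({x, y} : Finset (Pt F)).erase x = {y} := by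
      ext z
      simp only [Finset.mem_erase, Finset.mem_insert, Finset.mem_singleton]
      constructor
      · rintro ⟨h3, h4 | h4⟩
        · exact absurd h4 h3
        · exact h4
      · rintro rfl
        exact ⟨Ne.symm hxy, Or.inr rfl⟩
    have ey : ({x, y} : Finset (Pt F)).erase y = {x} := by
      ext z
      simp only [Finset.mem_erase, Finset.mem_insert, Finset.mem_singleton]
      constructor
      · rintro ⟨h3, h4 | h4⟩
        · exact h4
        · exact absurd h4 h3
      · rintro rfl
        exact ⟨hxy, Or.inl rfl⟩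
    unfold W
    rw [h0, hm]
    simp only [Multiset.map_zero, Multiset.prod_zero, mul_one]
    rw [ex, ey, Finset.prod_singleton, Finset.prod_singleton, (hlam F l).2.1 x y]
    rw [Odd.neg_pow (by decide : Odd 3), mul_neg, div_neg, add_neg_cancel]
  · rw [if_neg h, if_neg h, add_zero]

end Pool.Agent.L7h29.NH
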