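import Pool.Agent.L7h29.NH.Lam

set_option autoImplicit false

/-! Project NH, part TOT. -/

namespace Pool.Agent.L7h29.NH

open Polynomial
open scoped LinearAlgebra.Projectivization Matrix Classical
open Pool.Agent.L7h89.NH

theorem mem_meet {F : Type} [Field F] (S : Finset (Pt F)) (l x : Pt F) :
    x ∈ meet S l ↔ x ∈ S ∧ On x l := by
  unfold meet
  exact Finset.mem_filter

/-- a point of `P` on the line has value 0 -/
theorem val_zero_of_mem {F : Type} [Field F] [Fintype F] (hlam : S_LAM) (S : Finset (Pt F))
    (P : Multiset (Pt F)) (l x : Pt F) (hx : On x l) (hP : x ∈ P) : val S P l x = 0 := by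
  unfold val
  split_ifs with h
  · unfold W
    have h0 : ((P.filter (fun p => On p l)).map (fun p => lam l x p)).prod = 0 := by
      apply Multiset.prod_eq_zero
      rw [Multiset.mem_map]
      exact ⟨x, Multiset.mem_filter.mpr ⟨hP, hx⟩, ((hlam F l).2.2.1 x x hx hx).mpr rfl⟩
    rw [h0, mul_zero, zero_div]
  · rfl

theorem psi_le {F : Type} [Field F] (P Q : Multiset (Pt F)) (l : Pt F) (h : P ≤ Q) :
    psi P l ≤ psi Q l := by
  unfold psi
  exact Multiset.card_le_card (Multiset.filter_le_filter _ h)

/-- TOT for `card P = q - 4` -/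
theorem tot_core (hlam : S_LAM) (hpen : S_PEN) (hbis : S_BIS) (F : Type) [Field F] [Fintype F]
    (S : Finset (Pt F)) (P : Multiset (Pt F)) (M : Pt F)
    (hS : S.card = Fintype.card F + 1) (hP : P.card + 4 = Fintype.card F)
    (hM : 3 ≤ deg S M) (hpsi : psi P M = 3 * (deg S M - 2))
    (hl : ∀ l, l ≠ M → 3 ≤ deg S l → (∀ x ∈ meet S l, x ∈ P) ∨ 3 * (deg S l - 2) < psi P l) :
    ∑ x ∈ meet S M, ((P.filter (fun p => On p M)).map (fun p => lam M x p)).prod
      / (∏ y ∈ (meet S M).erase x, lam M x y) ^ 3 = 0 := by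
  -- the sum over all flags
  have hx0 : ∑ x ∈ S, ∑ l ∈ Finset.univ.filter (fun l => On x l), val S P l x = 0 := by
    apply Finset.sum_eq_zero
    intro x hx
    by_cases hxP : x ∈ P
    · apply Finset.sum_eq_zero
      intro l hxl
      exact val_zero_of_mem hlam S P l x (Finset.mem_filter.mp hxl).2 hxP
    · apply hpen F S P x hS hP hx hxP
      intro l hxl
      by_cases hlM : l = M
      · rw [hlM, hpsi]
      · rcases Nat.lt_or_ge (deg S l) 3 with h3 | h3
        · have : deg S l - 2 = 0 := by omega
          rw [this]; simp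
        · rcases hl l hlM h3 with h4 | h4
          · exact absurd (h4 x ((mem_meet S l x).mpr ⟨hx, hxl⟩)) hxP
          · exact h4.le
  have hswap : ∑ x ∈ S, ∑ l ∈ Finset.univ.filter (fun l => On x l), val S P l x =
      ∑ l : Pt F, ∑ x ∈ meet S l, val S P l x := by
    apply Finset.sum_comm'
    intro x l
    rw [mem_meet, Finset.mem_filter]
    constructor
    · rintro ⟨h1, _, h2⟩
      exact ⟨⟨h1, h2⟩, Finset.mem_univ _⟩
    · rintro ⟨⟨h1, h2⟩, _⟩
      exact ⟨h1, Finset.mem_univ _, h2⟩
  rw [hswap] at hx0
  have hl0 : ∀ l ∈ (Finset.univ : Finset (Pt F)), l ≠ M → ∑ x ∈ meet S l, val S P l x = 0 := by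
    intro l _ hlM
    rcases Nat.lt_or_ge (deg S l) 2 with h2 | h2
    · apply Finset.sum_eq_zero
      intro x _
      unfold val
      rw [if_neg]
      rintro ⟨h3, _⟩
      omega
    · rcases Nat.lt_or_ge (deg S l) 3 with h3 | h3
      · exact hbis F S P l (by omega)
      · apply Finset.sum_eq_zero
        intro x hx
        rcases hl l hlM h3 with h4 | h4
        · exact val_zero_of_mem hlam S P l x ((mem_meet S l x).mp hx).2 (h4 x hx)
        · unfold val
          rw [if_neg]
          rintro ⟨_, h5⟩
          omega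
  rw [Finset.sum_eq_single M hl0 (fun h => absurd (Finset.mem_univ M) h)] at hx0
  set A : F := ((P.filter (fun p => ¬ On p M)).map (fun p => p.rep ⬝ᵥ M.rep)).prod with hA
  set B : F := (∏ s ∈ S.filter (fun s => ¬ On s M), s.rep ⬝ᵥ M.rep) with hB
  have hA0 : A ≠ 0 := by
    rw [hA]
    intro h
    rw [Multiset.prod_eq_zero_iff, Multiset.mem_map] at h
    obtain ⟨p, hp, hp0⟩ := h
    exact (Multiset.mem_filter.mp hp).2 hp0
  have hB0 : B ≠ 0 := by
    rw [hB]
    rw [Finset.prod_ne_zero_iff]
    intro s hs
    exact (Finset.mem_filter.mp hs).2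
  have hval : ∀ x ∈ meet S M, val S P M x = (A / B ^ 3) *
      (((P.filter (fun p => On p M)).map (fun p => lam M x p)).prod
        / (∏ y ∈ (meet S M).erase x, lam M x y) ^ 3) := by
    intro x _
    unfold val
    rw [if_pos ⟨by omega, hpsi⟩]
    unfold W
    rw [← hA, ← hB, mul_div_mul_comm]
  rw [Finset.sum_congr rfl hval, ← Finset.mul_sum] at hx0
  exact (mul_eq_zero.mp hx0).resolve_left (div_ne_zero hA0 (pow_ne_zero _ hB0))

theorem s_TOT (hbas : S_BAS) (hlam : S_LAM) (hpen : S_PEN) (hbis : S_BIS) : S_TOT := by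
  intro F _ _ S P M hS hP hM hpsi hl
  have hb := hbas F
  -- a point not on M
  obtain ⟨T, hT⟩ : ∃ T : Pt F, ¬ On T M := by
    by_contra hcon
    push Not at hcon
    have h1 := hb.2.2.2.2.1 M
    have h2 := hb.2.2.2.2.2.1
    have h3 : Finset.univ.filter (fun p : Pt F => On p M) = Finset.univ := by
      apply Finset.filter_true_of_mem
      intro p _
      exact hcon p
    rw [h3, Finset.card_univ, h2] at h1
    have h4 : 0 < Fintype.card F := Fintype.card_pos
    nlinarith
  let k := Fintype.card F - 4 - P.card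
  let P' := P + Multiset.replicate k T
  have hf : P'.filter (fun p => On p M) = P.filter (fun p => On p M) := by
    simp only [P']
    rw [Multiset.filter_add]
    have : (Multiset.replicate k T).filter (fun p => On p M) = 0 := by
      rw [Multiset.filter_eq_nil]
      intro a ha
      rw [Multiset.eq_of_mem_replicate ha]
      exact hT
    rw [this, add_zero]
  have hle : P ≤ P' := Multiset.le_add_right _ _
  have hpsi' : psi P' M = psi P M := by
    unfold psi
    exact congrArg Multiset.card hf
  have h5 := tot_core hlam hpen hbis F S P' M hS (by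
    simp only [P', Multiset.card_add, Multiset.card_replicate, k]
    omega) hM (by rw [hpsi', hpsi]) (by
    intro l hlM h3
    rcases hl l hlM h3 with h4 | h4
    · left
      intro x hx
      exact Multiset.mem_of_le hle (h4 x hx)
    · right
      exact lt_of_lt_of_le h4 (psi_le P P' l hle))
  rw [hf] at h5
  exact h5

end Pool.Agent.L7h29.NH
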